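import Mathlib
import Pool.Agent.Y126.Notions
import Pool.Agent.H62O.Notions
import Pool.Agent.H62O.Two
import Pool.Agent.H62O.Conv3

/-!
# All Tate classes on all powers of an abelian variety are products of divisor classes if and only if
# this holds in codimension two on the fourth power and there are no Weil families

Let `A` be any abelian variety over a finitely generated field of any characteristic, `ℓ` a prime
number different from the characteristic, `V = V_ℓ(A)` the rational Tate module with the action `ρ`
of the Galois group `Γ`, `χ` the cyclotomic character and `ω` the Weil pairing of a polarization; `K` is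
the algebraic closure of `ℚ_ℓ` and `X = K ⊗ V`.  There is a stable lattice (`HasLattice`), and by
theorems of Tate, Zarhin, Mori and Faltings `V` is semisimple, also over finite extensions
(`PotentiallySemisimple`).  Nothing else is used about `ρ`.

All Tate classes on all powers of `A` are combinations of products of Tate classes of degree two, that
is of divisor classes (so that the Tate conjecture holds for all powers of `A` in all degrees) if and only
if this is the case for the Tate classes of codimension two on `A ^ 4` and there are no Weil families in
`X`.  There are no Weil families for instance if all strongly irreducible subspaces are self-dual and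
symplectic: types I and II.

(Not formalized: `A ^ 4` cannot be replaced by `A ^ 3` here; if the monodromy is that of the third
exterior power of the standard representation of `SL 6`, the only fourth power tensor which is not a
combination of products is the invariant quartic form, which is symmetric and is seen only on `A ^ 4`.)

The proof: the orthogonal projection onto the Lie algebra of the `ℓ`-adic monodromy group is a Tate
form in four variables; by the hypothesis it is annihilated by the operators that preserve the
divisor classes and have trace zero on the strongly irreducible subspaces, so that the commutators of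
these operators belong to the Lie algebra; it contains therefore the operators of rank one or two of
the symplectic, orthogonal and special linear Lie algebras of the strongly irreducible subspaces.  The
orthogonal subspaces (type III) are eliminated one after the other by the first fundamental theorem of
invariant theory for the special orthogonal Lie algebra; if one of them has odd dimension then `χ` has a
square root, and also forms in an odd number of variables have to be considered.  Conversely the product
of the determinants of a Weil family is a Tate form, and it is not preserved by all isometries which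
preserve the bilinear Tate forms, so that it is not a combination of products of them.
-/

set_option autoImplicit false

namespace Pool.Agent.Results.MP_7b53ad_ag.CodimensionTwo

open Module TensorProduct Pool.Agent.Y126.Notions

noncomputable section

/-- There is a lattice which is stable under the group: the matrices of the operators with respect to
some basis have integral entries; the values of `χ` are integral. -/
def HasLattice {ℓ : ℕ} [Fact ℓ.Prime] {V Γ : Type} [AddCommGroup V] [Module ℚ_[ℓ] V] [Group Γ]
    (ρ : Representation ℚ_[ℓ] Γ V) (χ : Γ →* ℚ_[ℓ]) : Prop :=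
  (∃ (n : ℕ) (b : Basis (Fin n) ℚ_[ℓ] V), ∀ g i j, ‖b.repr (ρ g (b j)) i‖ ≤ 1) ∧ ∀ g, ‖χ g‖ ≤ 1

/-- All Tate classes of codimension two on the fourth power are linear combinations of cup products
of Tate classes of degree two. -/
def CodimensionTwoGenerated {k V Γ : Type} [Field k] [AddCommGroup V] [Module k V] [Group Γ]
    (ρ : Representation k Γ V) (χ : Γ →* k) : Prop :=
  ∀ f : (Fin 4 → V) [⋀^Fin 2 × Fin 2]→ₗ[k] k, IsTateClass ρ χ f →
    f ∈ Submodule.span k {g : (Fin 4 → V) [⋀^Fin 2 × Fin 2]→ₗ[k] k |
      ∃ B : Fin 2 → (Fin 4 → V) [⋀^Fin 2]→ₗ[k] k, (∀ l, IsTateClassTwo ρ χ (B l)) ∧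
        ∀ v, g v = ∑ σ : Equiv.Perm (Fin 2 × Fin 2), ((Equiv.Perm.sign σ : ℤ) : k) *
          ∏ l, B l ![v (σ (l, 0)), v (σ (l, 1))]}

/-- **The Tate classes on all powers are generated in degree two if and only if those of codimension
two on the fourth power are and there are no Weil families.** -/
theorem result (ℓ : ℕ) [Fact ℓ.Prime] {V Γ : Type} [AddCommGroup V] [Module ℚ_[ℓ] V]
    [FiniteDimensional ℚ_[ℓ] V] [Group Γ] (ρ : Representation ℚ_[ℓ] Γ V) (χ : Γ →* ℚ_[ℓ])
    (ω : V →ₗ[ℚ_[ℓ]] V →ₗ[ℚ_[ℓ]] ℚ_[ℓ]) (halt : ∀ v, ω v v = 0)
    (hnondeg : ∀ u, (∀ v, ω v u = 0) → u = 0)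
    (hω : ∀ s u v, ω (ρ s u) (ρ s v) = χ s * ω u v)
    (hlattice : HasLattice ρ χ) (hsemisimple : PotentiallySemisimple ρ) :
    GeneratedInDegreeTwo ρ χ ↔ CodimensionTwoGenerated ρ χ ∧
      ∀ (Q : Type) [Fintype Q] [Nonempty Q]
        (L : Q → Submodule (AlgebraicClosure ℚ_[ℓ]) (AlgebraicClosure ℚ_[ℓ] ⊗[ℚ_[ℓ]] V)),
        ¬Pool.Agent.H62O.Notions.IsWeilFamily (extend (AlgebraicClosure ℚ_[ℓ]) ρ)
          ((algebraMap ℚ_[ℓ] (AlgebraicClosure ℚ_[ℓ]) : ℚ_[ℓ] →* _).comp χ) L := by
  classical
  obtain ⟨⟨n, b, hlat⟩, hχ⟩ := hlattice
  refine ⟨fun h => ⟨fun f hf => h 4 2 f hf, ?_⟩, fun h =>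
    Pool.Agent.H62O.Two.decomposable b ρ χ hlat hχ ω halt hnondeg hω hsemisimple h.2
      (Pool.Agent.H62CT.Tr.tensors_of_classes ρ χ h.1)⟩
  intro Q _ _ L
  exact Pool.Agent.H62O.Conv3.no_weil b ρ χ ω halt hnondeg hω hsemisimple h Q L

end

end Pool.Agent.Results.MP_7b53ad_ag.CodimensionTwo
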