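import Mathlib
import Pool.Agent.Y126.Notions
import Pool.Agent.H62O.Notions
import Pool.Agent.H62O.Two

/-!
# All Tate classes on all powers of an abelian variety are products of divisor classes and Weil
# classes if and only if this holds in codimension two on the fourth power

Let `A` be any abelian variety over a finitely generated field of any characteristic, `ℓ` a prime
number different from the characteristic, `V = V_ℓ(A)` the rational Tate module with the action `ρ`
of the Galois group `Γ`, `χ` the cyclotomic character and `ω` the Weil pairing of a polarization; `K` is
the algebraic closure of `ℚ_ℓ` and `X = K ⊗ V`.  There is a stable lattice (`HasLattice`), and by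
theorems of Tate, Zarhin, Mori and Faltings `V` is semisimple, also over finite extensions
(`PotentiallySemisimple`).  Nothing else is used about `ρ`.

All Tate classes on all powers of `A` are combinations of products of Tate classes of degree two
(divisor classes) and of Weil classes if and only if this is the case for the Tate classes of
codimension two on `A ^ 4`.

The proof: the orthogonal projection onto the Lie algebra of the `ℓ`-adic monodromy group is a Tate
form in four variables; by the hypothesis it is annihilated by the operators that preserve the
divisor classes and have trace zero on the strongly irreducible subspaces, so that the commutators of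
these operators belong to the Lie algebra; it contains therefore the operators of rank one or two of
the symplectic, orthogonal and special linear Lie algebras of the strongly irreducible subspaces.  The
orthogonal subspaces (type III) are eliminated one after the other by the first fundamental theorem of
invariant theory for the special orthogonal Lie algebra; if one of them has odd dimension then `χ` has a
square root, and also forms in an odd number of variables have to be considered.
-/

set_option autoImplicit false

namespace Pool.Agent.Results.MP_7b53ad_ag.CodimensionTwoWeil

open Module TensorProduct Pool.Agent.Y126.Notions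

noncomputable section

/-- There is a lattice which is stable under the group: the matrices of the operators with respect to
some basis have integral entries; the values of `χ` are integral. -/
def HasLattice {ℓ : ℕ} [Fact ℓ.Prime] {V Γ : Type} [AddCommGroup V] [Module ℚ_[ℓ] V] [Group Γ]
    (ρ : Representation ℚ_[ℓ] Γ V) (χ : Γ →* ℚ_[ℓ]) : Prop :=
  (∃ (n : ℕ) (b : Basis (Fin n) ℚ_[ℓ] V), ∀ g i j, ‖b.repr (ρ g (b j)) i‖ ≤ 1) ∧ ∀ g, ‖χ g‖ ≤ 1

/-- **The Tate classes on all powers are generated by classes of degree two and Weil classes if and only
if those of codimension two on the fourth power are.** -/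
theorem result (ℓ : ℕ) [Fact ℓ.Prime] {V Γ : Type} [AddCommGroup V] [Module ℚ_[ℓ] V]
    [FiniteDimensional ℚ_[ℓ] V] [Group Γ] (ρ : Representation ℚ_[ℓ] Γ V) (χ : Γ →* ℚ_[ℓ])
    (ω : V →ₗ[ℚ_[ℓ]] V →ₗ[ℚ_[ℓ]] ℚ_[ℓ]) (halt : ∀ v, ω v v = 0)
    (hnondeg : ∀ u, (∀ v, ω v u = 0) → u = 0)
    (hω : ∀ s u v, ω (ρ s u) (ρ s v) = χ s * ω u v)
    (hlattice : HasLattice ρ χ) (hsemisimple : PotentiallySemisimple ρ) :
    (∀ n m : ℕ, Pool.Agent.H62O.Notions.GeneratedByWeilClassesIn (AlgebraicClosure ℚ_[ℓ]) ρ χ ω n m) ↔
      Pool.Agent.H62O.Notions.GeneratedByWeilClassesIn (AlgebraicClosure ℚ_[ℓ]) ρ χ ω 4 2 := by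
  classical
  obtain ⟨⟨n, b, hlat⟩, hχ⟩ := hlattice
  exact ⟨fun h => h 4 2, fun h n m => Pool.Agent.H62O.Two.generated b ρ χ hlat hχ ω halt
    hnondeg hω hsemisimple h n m⟩

end

end Pool.Agent.Results.MP_7b53ad_ag.CodimensionTwoWeil
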