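import Mathlib
import Pool.Agent.H40TG.Fin6

/-!
# One reduction and one Galois element determine the Tate classes

Let `A` be an abelian variety over a finitely generated field `k`, let `Y` be a normal model of `k` over which `A` has
good reduction and on which `ℓ` is invertible, and let `V = H^{2i}(A)(i)`, a continuous representation of the compact
group `Γ = π₁(Y)`.  It is semisimple (Tate, Zarhin, Faltings).  A closed point `y` of `Y` together with a path gives a
Frobenius element `σ` in `Γ`, whose characteristic polynomial is rational (Weil), and an identification of `V` with the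
cohomology of the reduction `A_y`.  Under this identification the Tate classes of `A_y` are the vectors fixed by a power
of `σ`; another path to the same point replaces this subspace by its image under an element `γ⁻¹` of `Γ`.

Every Tate class of `A` is a Tate class of `A_y`, for every path; usually `A_y` has many more Tate classes than `A`.  We
show that nevertheless two paths are enough: after a finite extension of `k` (none, if the monodromy group is connected),
for all closed points `y` outside a set of density zero and for almost all `γ` in `Γ`, the Tate classes of `A` are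
exactly the vectors `v` such that both `v` and `γ v` are Tate classes of the one reduction `A_y`.
-/

set_option autoImplicit false

namespace Pool.Agent.Results.MP_7b53ad_ag.OneReductionOneElement

open Matrix MeasureTheory

section Defs

variable {Γ C : Type} [Group Γ] [Field C] {I : Type} [Fintype I] [DecidableEq I]

/-- A representation in matrices is irreducible: its dimension is positive, and it has no stable subspace other than
zero and the whole space. -/
def IsIrreducible {n : ℕ} (ρ : Γ →* Matrix (Fin n) (Fin n) C) : Prop :=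
  0 < n ∧ ∀ U : Submodule C (Fin n → C), (∀ g, ∀ u ∈ U, ρ g *ᵥ u ∈ U) → U = ⊥ ∨ U = ⊤

/-- The direct sum of the representations `ρ j`. -/
def directSum {s : ℕ} {n : Fin s → ℕ} (ρ : ∀ j, Γ →* Matrix (Fin (n j)) (Fin (n j)) C) :
    Γ →* Matrix (Σ j, Fin (n j)) (Σ j, Fin (n j)) C where
  toFun g := Matrix.blockDiagonal' fun j => ρ j g
  map_one' := (Pool.Agent.H40LT.blk ρ).map_one
  map_mul' g g' := (Pool.Agent.H40LT.blk ρ).map_mul g g'

/-- The monodromy of `V` is connected: every polynomial over `C` in the entries of the matrices which vanishes on an open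
subgroup vanishes on the whole group. -/
def HasConnectedMonodromy [TopologicalSpace Γ] (V : Γ →* Matrix I I C) : Prop :=
  ∀ D : Subgroup Γ, IsOpen (D : Set Γ) → ∀ P : MvPolynomial (I × I) C,
    (∀ x ∈ D, MvPolynomial.eval (fun q => V x q.1 q.2) P = 0) → ∀ x, MvPolynomial.eval (fun q => V x q.1 q.2) P = 0

/-- The characteristic polynomial of the matrix `M` has rational coefficients. -/
def HasRationalCharpoly [CharZero C] (M : Matrix I I C) : Prop :=
  ∃ P : Polynomial ℚ, M.charpoly = P.map (algebraMap ℚ C)

/-- A closed set of Haar measure zero. -/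
def IsSmall [TopologicalSpace Γ] [IsTopologicalGroup Γ] [CompactSpace Γ] [MeasurableSpace Γ] [BorelSpace Γ]
    (Z : Set Γ) : Prop := IsClosed Z ∧ Measure.haar Z = 0

/-- The vector `v` is a Tate class of `V`: it is fixed by an open subgroup. -/
def IsTateClass [TopologicalSpace Γ] (V : Γ →* Matrix I I C) (v : I → C) : Prop :=
  ∃ U : Subgroup Γ, IsOpen (U : Set Γ) ∧ ∀ x ∈ U, V x *ᵥ v = v

/-- The vector `v` is a Tate class of the reduction with the Frobenius element `σ`: it is fixed by a power of `σ`. -/
def IsTateClassAt (V : Γ →* Matrix I I C) (σ : Γ) (v : I → C) : Prop := ∃ m : ℕ, 0 < m ∧ V (σ ^ m) *ᵥ v = v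

end Defs

/-- **Theorem.** Let `Γ` be a compact group, `S` a subset (the Frobenius elements) and `V` the direct sum of continuous
irreducible representations of `Γ` over an algebraically closed Hausdorff topological field `C` of characteristic zero
(for example the algebraic closure of `ℚ_ℓ`), such that the characteristic polynomials of the elements of `S` are
rational.  There are an open normal subgroup `D`, equal to `Γ` if the monodromy is connected, and a closed set `Z` of Haar
measure zero, stable under conjugation, such that for every `σ` in `S` which is in `D` and not in `Z` there is a closed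
set `Z'` of Haar measure zero such that for every `γ` in `D` which is not in `Z'`: a vector `v` is a Tate class of `V` if
and only if both `v` and `γ v` are fixed by a power of `σ`. -/
theorem result (C : Type) [Field C] [CharZero C] [IsAlgClosed C] [TopologicalSpace C] [IsTopologicalRing C] [T2Space C]
    (Γ : Type) [Group Γ] [TopologicalSpace Γ] [IsTopologicalGroup Γ] [CompactSpace Γ] [MeasurableSpace Γ]
    [BorelSpace Γ] (s : ℕ) (n : Fin s → ℕ) (ρ : ∀ j, Γ →* Matrix (Fin (n j)) (Fin (n j)) C)
    (hρ : ∀ j, Continuous (ρ j)) (hirr : ∀ j, IsIrreducible (ρ j)) (S : Set Γ)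
    (hS : ∀ σ ∈ S, HasRationalCharpoly (directSum ρ σ)) :
    ∃ D : Subgroup Γ, D.Normal ∧ IsOpen (D : Set Γ) ∧ (HasConnectedMonodromy (directSum ρ) → D = ⊤) ∧
      ∃ Z : Set Γ, IsSmall Z ∧ (∀ x ∈ Z, ∀ τ, τ * x * τ⁻¹ ∈ Z) ∧ ∀ σ ∈ S, σ ∈ D → σ ∉ Z →
        ∃ Z' : Set Γ, IsSmall Z' ∧ ∀ γ ∈ D, γ ∉ Z' → ∀ v, IsTateClass (directSum ρ) v ↔
          IsTateClassAt (directSum ρ) σ v ∧ IsTateClassAt (directSum ρ) σ (directSum ρ γ *ᵥ v) := by
  have hirr' : ∀ j, Pool.Agent.H40GO.Irr (ρ j) := fun j => ⟨⟨⟨0, (hirr j).1⟩⟩, (hirr j).2⟩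
  obtain ⟨D, hD1, hD2, hD3, hD4, Z, hZ1, hZ2, hZ3, hZ4⟩ :=
    Pool.Agent.H40TG.tate_pair Measure.haar n ρ hρ hirr' S hS
  refine ⟨D, hD1, hD2, fun h => hD3 ?_, Z, ⟨hZ1, hZ2⟩, hZ3, ?_⟩
  · intro D' hD' _ P hP x _
    exact h D' hD' P hP x
  intro σ hσS hσ hσZ
  obtain ⟨h1, Z', hZ'1, hZ'2, h2⟩ := hZ4 σ hσS hσ hσZ
  refine ⟨Z', ⟨hZ'1, hZ'2⟩, fun γ hγ hγZ v => ?_⟩
  have hV : ∀ x, directSum ρ x = Pool.Agent.H40LT.blk ρ x := fun _ => rfl
  constructor
  · intro h
    have h3 := (hD4 v).1 h
    refine ⟨⟨1, one_pos, ?_⟩, ⟨1, one_pos, ?_⟩⟩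
    · rw [pow_one, hV, h3 σ hσ]
    · rw [pow_one, hV, hV, h3 γ hγ, h3 σ hσ]
  · rintro ⟨⟨m, hm, hv⟩, ⟨m', hm', hv'⟩⟩
    rw [hV, map_pow] at hv
    rw [hV, hV, map_pow] at hv'
    exact (hD4 v).2 (h2 γ hγ hγZ v (h1 m v hm hv) (h1 m' _ hm' hv'))

end Pool.Agent.Results.MP_7b53ad_ag.OneReductionOneElement
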