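import Mathlib
import Pool.Agent.Y126.Notions
import Pool.Agent.H62CT.Fo

/-!
# The Tate classes on all powers of an abelian variety are determined by those of codimension two on
# its fourth power

Let `A` be an abelian variety over a finitely generated field of any characteristic, `ℓ` a prime
number different from the characteristic, `V = V_ℓ(A)` the rational Tate module with the action `ρ`
of the Galois group `Γ`, `χ` the cyclotomic character and `ω` the Weil pairing of a polarization; `K` is
the algebraic closure of `ℚ_ℓ` and `X = K ⊗ V`.  There is a stable lattice (`HasLattice`), and by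
theorems of Tate, Zarhin, Mori and Faltings `V` is semisimple, also over finite extensions
(`PotentiallySemisimple`).  Nothing else is used about `ρ`.

The Tate forms (`IsTateForm`) in `2 m` variables are the multilinear forms on which a subgroup of
finite index acts by `χ ^ m`: these are the Tate classes in `H ^ 1 (A) ^ (⊗ 2 m) (m)`, a direct
summand of `H ^ (2 m) (A ^ (2 m)) (m)`; for `m = 2` the Tate classes in `H ^ 1 (A) ^ (⊗ 4) (2)`,
part of the Tate classes of codimension two on `A ^ 4`.  All Tate classes on all powers of `A` are given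
by such forms.

1. The Tate forms of all degrees are determined by those in four variables and by the determinants:
a form in `2 m` variables over `K` is a Tate form if and only if it is annihilated by all operators `x`
that annihilate the Tate forms in four variables and all determinants that are Tate (`AnnihilatesDet`:
if `L q` are strongly irreducible subspaces and a subgroup of finite index acts on the tensor product of
the lines `Λ ^ max (L q)` by the power of `χ` with half of the dimension as exponent, then the sum of the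
traces of `x` on the `L q` is zero).

2. If all strongly irreducible subspaces are self-dual (types I, II and III; the base field is
replaced by a finite extension) then the determinants are not needed, also over `ℚ_ℓ`: a form in `2 m`
variables over `ℚ_ℓ` is a Tate form if and only if it is annihilated by all operators that annihilate
the Tate forms in four variables.

So the Lie algebra of the `ℓ`-adic monodromy group is the annihilator of the Tate classes of codimension
two on `A ^ 4` and of the determinants.  The proof: the trace form of `V` is nondegenerate on this Lie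
algebra, and the orthogonal projection onto it is a Tate form in four variables.
-/

set_option autoImplicit false

namespace Pool.Agent.Results.MP_7b53ad_ag.TateFormsFromFour

open Module TensorProduct Pool.Agent.Y126.Notions

noncomputable section

/-- There is a lattice which is stable under the group: the matrices of the operators with respect to
some basis have integral entries; the values of `χ` are integral. -/
def HasLattice {ℓ : ℕ} [Fact ℓ.Prime] {V Γ : Type} [AddCommGroup V] [Module ℚ_[ℓ] V] [Group Γ]
    (ρ : Representation ℚ_[ℓ] Γ V) (χ : Γ →* ℚ_[ℓ]) : Prop :=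
  (∃ (n : ℕ) (b : Basis (Fin n) ℚ_[ℓ] V), ∀ g i j, ‖b.repr (ρ g (b j)) i‖ ≤ 1) ∧ ∀ g, ‖χ g‖ ≤ 1

/-- A multilinear form in `2 m` variables on which a subgroup of finite index acts by `χ ^ m`. -/
def IsTateForm {K X Γ : Type} [Field K] [AddCommGroup X] [Module K X] [Group Γ]
    (R : Representation K Γ X) (χ : Γ →* K) (m : ℕ)
    (φ : MultilinearMap K (fun _ : Fin m × Fin 2 => X) K) : Prop :=
  ∃ Δ : Subgroup Γ, Δ.FiniteIndex ∧ ∀ s ∈ Δ, ∀ v, φ (fun k => R s (v k)) = χ s ^ m * φ v

/-- The operator `x` annihilates the form `φ`, acting as a derivation. -/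
def Annihilates {K X : Type} [Field K] [AddCommGroup X] [Module K X] (x : Module.End K X) {m : ℕ}
    (φ : MultilinearMap K (fun _ : Fin m × Fin 2 => X) K) : Prop :=
  ∀ v : Fin m × Fin 2 → X, ∑ k, φ (Function.update v k (x (v k))) = 0

/-- The operator `x` annihilates the Tate forms in four variables. -/
def AnnihilatesFour {K X Γ : Type} [Field K] [AddCommGroup X] [Module K X] [Group Γ]
    (R : Representation K Γ X) (χ : Γ →* K) (x : Module.End K X) : Prop :=
  ∀ ψ : MultilinearMap K (fun _ : Fin 2 × Fin 2 => X) K, IsTateForm R χ 2 ψ → Annihilates x ψ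

/-- The operator `x` annihilates the determinants that are Tate classes: for all families of strongly
irreducible subspaces `L q` such that a subgroup of finite index acts on the tensor product of their
determinants by the power of `χ` whose exponent is half of the sum of the dimensions, the sum of
the traces of `x` on the `L q` is zero (if `x` preserves the `L q`). -/
def AnnihilatesDet {K X Γ : Type} [Field K] [AddCommGroup X] [Module K X] [Group Γ]
    (R : Representation K Γ X) (χ : Γ →* K) (x : Module.End K X) : Prop :=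
  ∀ (Q : Type) [Fintype Q] (L : Q → Submodule K X), (∀ q, StronglyIrreducible R (L q)) →
    (∃ (c : ℕ) (Δ : Subgroup Γ) (h : ∀ q, ∀ g ∈ Δ, ∀ u ∈ L q, R g u ∈ L q), Δ.FiniteIndex ∧
      2 * c = ∑ q, finrank K (L q) ∧
      ∀ (g : Γ) (hg : g ∈ Δ), ∏ q, LinearMap.det ((R g).restrict (h q g hg)) = χ g ^ c) →
    ∀ h : ∀ q, ∀ u ∈ L q, x u ∈ L q, ∑ q, LinearMap.trace K (L q) (x.restrict (h q)) = 0

open Pool.Agent.H204R3.SP Pool.Agent.H204R3.GP Pool.Agent.W522.U

/-- **The Tate forms of all degrees are determined by the Tate forms in four variables and the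
determinants, and by the Tate forms in four variables alone if there is no type IV.** -/
theorem result (ℓ : ℕ) [Fact ℓ.Prime] {V Γ : Type} [AddCommGroup V] [Module ℚ_[ℓ] V]
    [FiniteDimensional ℚ_[ℓ] V] [Group Γ] (ρ : Representation ℚ_[ℓ] Γ V) (χ : Γ →* ℚ_[ℓ])
    (ω : V →ₗ[ℚ_[ℓ]] V →ₗ[ℚ_[ℓ]] ℚ_[ℓ]) (halt : ∀ v, ω v v = 0)
    (hnondeg : ∀ u, (∀ v, ω v u = 0) → u = 0)
    (hω : ∀ s u v, ω (ρ s u) (ρ s v) = χ s * ω u v)
    (hlattice : HasLattice ρ χ) (hsemisimple : PotentiallySemisimple ρ) :
    (∀ (m : ℕ) (φ : MultilinearMap (AlgebraicClosure ℚ_[ℓ])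
        (fun _ : Fin m × Fin 2 => AlgebraicClosure ℚ_[ℓ] ⊗[ℚ_[ℓ]] V) (AlgebraicClosure ℚ_[ℓ])),
      IsTateForm (extend (AlgebraicClosure ℚ_[ℓ]) ρ)
        ((algebraMap ℚ_[ℓ] (AlgebraicClosure ℚ_[ℓ]) : ℚ_[ℓ] →* _).comp χ) m φ ↔
      ∀ x, AnnihilatesFour (extend (AlgebraicClosure ℚ_[ℓ]) ρ)
          ((algebraMap ℚ_[ℓ] (AlgebraicClosure ℚ_[ℓ]) : ℚ_[ℓ] →* _).comp χ) x →
        AnnihilatesDet (extend (AlgebraicClosure ℚ_[ℓ]) ρ)
          ((algebraMap ℚ_[ℓ] (AlgebraicClosure ℚ_[ℓ]) : ℚ_[ℓ] →* _).comp χ) x →
        Annihilates x φ) ∧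
    ((∀ U, StronglyIrreducible (extend (AlgebraicClosure ℚ_[ℓ]) ρ) U →
        AreDual (extend (AlgebraicClosure ℚ_[ℓ]) ρ)
          ((algebraMap ℚ_[ℓ] (AlgebraicClosure ℚ_[ℓ]) : ℚ_[ℓ] →* _).comp χ) U U) →
      ∀ (m : ℕ) (φ : MultilinearMap ℚ_[ℓ] (fun _ : Fin m × Fin 2 => V) ℚ_[ℓ]),
        IsTateForm ρ χ m φ ↔ ∀ x, AnnihilatesFour ρ χ x → Annihilates x φ) := by
  classical
  obtain ⟨⟨n, b, hlat⟩, hχ⟩ := hlattice
  refine ⟨fun m φ => ⟨fun hφ x h2 h3 => ?_, fun h => ?_⟩, fun hd m φ => ⟨fun hφ x h2 => ?_,
    fun h => ?_⟩⟩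
  · exact Pool.Agent.H62CT.Fo.kills_of_four b ρ χ hlat hχ ω halt hnondeg hω hsemisimple h2
      (fun Q _ L hL => h3 Q L hL.1 hL.2) m φ hφ
  · refine Pool.Agent.H62CT.tate_of_killed b ρ χ hlat hχ φ fun x hx => ?_
    refine h x (fun ψ hψ => hx 2 ψ hψ) fun Q _ L hL hdet h' => ?_
    exact Pool.Agent.H62CT.Fo.trace_of_lieT b ρ χ hlat hχ ω halt hnondeg hω hsemisimple hx hL hdet h'
  · exact Pool.Agent.H62CT.Fo.kills_of_four_selfdual b ρ χ hlat hχ ω halt hnondeg hω hsemisimple hd
      h2 hφ
  · exact Pool.Agent.H62CT.Fo.tate_of_killed_base b ρ χ hlat hχ φ fun x hx =>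
      h x fun ψ hψ => hx 2 ψ hψ

end

end Pool.Agent.Results.MP_7b53ad_ag.TateFormsFromFour
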